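import Mathlib
import Pool.Agent.TH186.Balls.Main

/-!
# MP_41fc2e_co: if all balls are uniform expanders then the growth is far from purely exponential

If all balls of an infinite connected graph of bounded degree are uniform expanders, then the
largest ball sizes `M(r)` exceed every exponential `λ ^ r ≤ M(r)` by a polynomial factor.
-/

set_option autoImplicit false

universe u

namespace Pool.Agent.Results.MP_41fc2e_co.GrowthDefect

/-- the ball of radius `r` around `v` -/
def ball {V : Type u} (G : SimpleGraph V) (v : V) (r : ℕ) : Set V := {w | G.dist v w ≤ r}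

/-- the number of edges of the induced subgraph `G[B]` with exactly one endpoint in `S ⊆ B`, each
counted once, as the pair (endpoint in `S`, endpoint outside `S`) -/
noncomputable def cut {V : Type u} (G : SimpleGraph V) (B S : Set V) : ℕ :=
  {p : V × V | p.1 ∈ S ∧ p.2 ∈ B ∧ p.2 ∉ S ∧ G.Adj p.1 p.2}.ncard

/-- every induced ball `G[B(v,r)]` has edge Cheeger constant at least `ε` -/
def BallsExpand {V : Type u} (G : SimpleGraph V) (ε : ℝ) : Prop :=
  ∀ (v : V) (r : ℕ) (S : Set V), S ⊆ ball G v r → S.Nonempty →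
    2 * S.ncard ≤ (ball G v r).ncard → ε * (S.ncard : ℝ) ≤ (cut G (ball G v r) S : ℝ)

open Pool.Agent.TH186 in
/-- For all `D` and `ε > 0` there are `C > 0` and `k` such that for every infinite connected graph
of maximum degree at most `D` all of whose balls have Cheeger constant at least `ε`, every
`lam > 0` such that for each `r` some ball of radius `r` has at least `lam ^ r` vertices, and every
`J ≥ 1`, some ball of radius `j ≤ J` has at least `(J / C) ^ (1 / k) * lam ^ j` vertices. -/
theorem result (D : ℕ) (ε : ℝ) (hε : 0 < ε) : ∃ C : ℝ, 0 < C ∧ ∃ k : ℕ,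
    ∀ (V : Type u) [Infinite V] (G : SimpleGraph V), G.Connected →
      (∀ v, (G.neighborSet v).encard ≤ D) → BallsExpand G ε →
      ∀ lam : ℝ, 0 < lam → (∀ r : ℕ, ∃ v, lam ^ r ≤ ((ball G v r).ncard : ℝ)) →
        ∀ J : ℕ, 1 ≤ J → ∃ j ≤ J, ∃ v,
          (J : ℝ) ≤ C * (((ball G v j).ncard : ℝ) / lam ^ j) ^ k := by
  classical
  have hD1 : (0 : ℝ) < (D : ℝ) + 1 := by positivity
  obtain ⟨C, hC, k, hk⟩ := Balls.main.{u} D (ε / (D + 1)) (by positivity)
  refine ⟨C, hC, k, ?_⟩
  intro V _ G hc hdeg hexp lam hlam hl J hJ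
  have hfin : ∀ v, (G.neighborSet v).Finite := fun v => by
    apply Set.finite_of_encard_le_coe (hdeg v)
  have hball : ∀ v r, (ball G v r).ncard = (Balls.ball G v r).card := by
    intro v r
    rw [← Set.ncard_coe_finset]
    congr 1
    ext w
    rw [Finset.mem_coe, Balls.mem_ball hc hfin]
    exact Iff.rfl
  have hnb : ∀ v, (Balls.nb G v).card ≤ D := by
    intro v
    have h1 : (G.neighborSet v).ncard = (Balls.nb G v).card := by
      rw [← Set.ncard_coe_finset]
      congr 1
      ext w
      rw [Finset.mem_coe, Balls.mem_nb hfin]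
      exact Iff.rfl
    rw [← h1]
    have h2 := hdeg v
    rw [← (hfin v).cast_ncard_eq] at h2
    exact_mod_cast h2
  have H : Balls.Hyp G D (ε / (D + 1)) := by
    refine ⟨hc, hfin, hnb, by positivity, ?_⟩
    intro v r S hS h2
    rcases S.eq_empty_or_nonempty with rfl | hne
    · rw [Finset.card_empty, Nat.cast_zero, mul_zero]
      exact Nat.cast_nonneg _
    have hmem : ∀ w, w ∈ ball G v r ↔ w ∈ Balls.ball G v r := by
      intro w
      rw [Balls.mem_ball hc hfin]
      exact Iff.rfl
    have h3 := hexp v r (S : Set V) (fun w hw => (hmem w).2 (hS hw)) hne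
      (by rw [Set.ncard_coe_finset, hball]; exact h2)
    rw [Set.ncard_coe_finset] at h3
    set W := (Balls.ball G v r).filter (fun w => w ∉ S ∧ ∃ u ∈ S, G.Adj u w) with hW
    have h4 : cut G (ball G v r) (S : Set V) ≤ D * W.card := by
      unfold cut
      have h5 : {p : V × V | p.1 ∈ (S : Set V) ∧ p.2 ∈ ball G v r ∧ p.2 ∉ (S : Set V) ∧
          G.Adj p.1 p.2} ⊆
          ((W.sigma fun w => Balls.nb G w).image (fun q => (q.2, q.1)) : Finset (V × V)) := by
        rintro ⟨a, b⟩ ⟨h6, h7, h8, h9⟩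
        rw [Finset.coe_image, Set.mem_image]
        refine ⟨⟨b, a⟩, ?_, rfl⟩
        rw [Finset.mem_coe, Finset.mem_sigma]
        refine ⟨Finset.mem_filter.2 ⟨(hmem b).1 h7, h8, a, h6, h9⟩, ?_⟩
        rw [Balls.mem_nb hfin]
        exact h9.symm
      refine (Set.ncard_le_ncard h5 (Finset.finite_toSet _)).trans ?_
      rw [Set.ncard_coe_finset]
      refine Finset.card_image_le.trans ?_
      rw [Finset.card_sigma]
      refine (Finset.sum_le_card_nsmul _ _ D fun w _ => hnb w).trans ?_
      rw [smul_eq_mul, mul_comm]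
    have h5 : ε * (S.card : ℝ) ≤ (D + 1) * (W.card : ℝ) := by
      refine h3.trans ?_
      have h6 : ((cut G (ball G v r) (S : Set V) : ℕ) : ℝ) ≤ (D : ℝ) * (W.card : ℝ) := by
        exact_mod_cast h4
      have h7 : (0 : ℝ) ≤ (W.card : ℝ) := Nat.cast_nonneg _
      linarith
    rw [div_mul_eq_mul_div, div_le_iff₀ hD1]
    linarith
  obtain ⟨v0⟩ := hc.nonempty
  have hgrow : ∀ r ≤ J * (2 * J * (D + 1) + 2), ∃ v,
      (1 + ε / (D + 1)) ^ r ≤ ((Balls.ball G v r).card : ℝ) := by
    intro r hr
    obtain ⟨s, hs⟩ := Infinite.exists_subset_card_eq V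
      (2 * (Balls.ball G v0 (J * (2 * J * (D + 1) + 2))).card)
    exact ⟨v0, H.growth_pow (n := J * (2 * J * (D + 1) + 2)) (s := s) hs.ge r hr⟩
  obtain ⟨j, hj, v, hv⟩ := hk V G H J hJ lam hlam
    (by
      intro r _
      obtain ⟨v, hv⟩ := hl r
      exact ⟨v, by rwa [← hball]⟩) hgrow
  exact ⟨j, hj, v, by rwa [hball]⟩

end Pool.Agent.Results.MP_41fc2e_co.GrowthDefect
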