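import Mathlib
import Pool.Agent.TH186.Balls.Prod

/-!
# MP_41fc2e_co: Cartesian products of two graphs with the same growth rate

If the balls around one vertex of a Cartesian product of two graphs are uniform expanders, then
the growth rates of the two factors differ by a definite factor.
-/

set_option autoImplicit false

universe u v

namespace Pool.Agent.Results.MP_41fc2e_co.ProductGraphs

/-- the ball of radius `r` around `v` -/
def ball {V : Type u} (G : SimpleGraph V) (v : V) (r : ℕ) : Set V := {w | G.dist v w ≤ r}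

/-- the number of edges of the induced subgraph `G[B]` with exactly one endpoint in `S ⊆ B`, each
counted once, as the pair (endpoint in `S`, endpoint outside `S`) -/
noncomputable def cut {V : Type u} (G : SimpleGraph V) (B S : Set V) : ℕ :=
  {p : V × V | p.1 ∈ S ∧ p.2 ∈ B ∧ p.2 ∉ S ∧ G.Adj p.1 p.2}.ncard

/-- every induced ball `G[B(o,r)]` around `o` has edge Cheeger constant at least `ε` -/
def BallsExpandAt {V : Type u} (G : SimpleGraph V) (o : V) (ε : ℝ) : Prop :=
  ∀ (r : ℕ) (S : Set V), S ⊆ ball G o r → S.Nonempty →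
    2 * S.ncard ≤ (ball G o r).ncard → ε * (S.ncard : ℝ) ≤ (cut G (ball G o r) S : ℝ)

open Pool.Agent.TH186 in
/-- Let `G₁`, `G₂` be connected graphs whose Cartesian product `G` is infinite and of maximum
degree at most `D ≥ 1`. Suppose that all balls of `G` around one vertex `(v₁, v₂)` have Cheeger
constant at least `ε > 0`. If `|B(v₁,r)|, |B(v₂,r)| ≤ lam ^ r` for all large `r` and
`mu ^ (2 r) ≤ |B(v₁,r)| |B(v₂,r)|` for infinitely many `r`, then `mu ^ 2 (1 + ε / D) ≤ lam ^ 2`. -/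
theorem result (D : ℕ) (hD : 0 < D) (ε : ℝ) (hε : 0 < ε) (V₁ : Type u) (V₂ : Type v)
    [Infinite (V₁ × V₂)] (G₁ : SimpleGraph V₁) (G₂ : SimpleGraph V₂)
    (h₁ : G₁.Connected) (h₂ : G₂.Connected)
    (hdeg : ∀ x, ((G₁.boxProd G₂).neighborSet x).encard ≤ D) (v₁ : V₁) (v₂ : V₂)
    (hexp : BallsExpandAt (G₁.boxProd G₂) (v₁, v₂) ε) (lam mu : ℝ) (hlam : 0 < lam) (hmu : 0 < mu)
    (hl₁ : ∀ᶠ r : ℕ in Filter.atTop, ((ball G₁ v₁ r).ncard : ℝ) ≤ lam ^ r)
    (hl₂ : ∀ᶠ r : ℕ in Filter.atTop, ((ball G₂ v₂ r).ncard : ℝ) ≤ lam ^ r)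
    (hm : ∃ᶠ r : ℕ in Filter.atTop,
      mu ^ (2 * r) ≤ ((ball G₁ v₁ r).ncard : ℝ) * ((ball G₂ v₂ r).ncard : ℝ)) :
    mu ^ 2 * (1 + ε / D) ≤ lam ^ 2 := by
  classical
  have hD' : (0 : ℝ) < D := by exact_mod_cast hD
  have hfin : ∀ x, ((G₁.boxProd G₂).neighborSet x).Finite := fun x =>
    Set.finite_of_encard_le_coe (hdeg x)
  have hc := h₁.boxProd h₂
  have hf1 := Balls.fin_left v₂ hfin
  have hf2 := Balls.fin_right v₁ hfin
  have hb : ∀ r, (ball (G₁.boxProd G₂) (v₁, v₂) r).ncard =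
      (Balls.ball (G₁.boxProd G₂) (v₁, v₂) r).card := by
    intro r
    rw [← Set.ncard_coe_finset]
    congr 1
    ext w
    rw [Finset.mem_coe, Balls.mem_ball hc hfin]
    exact Iff.rfl
  have hb1 : ∀ r, (ball G₁ v₁ r).ncard = (Balls.ball G₁ v₁ r).card := by
    intro r
    rw [← Set.ncard_coe_finset]
    congr 1
    ext w
    rw [Finset.mem_coe, Balls.mem_ball h₁ hf1]
    exact Iff.rfl
  have hb2 : ∀ r, (ball G₂ v₂ r).ncard = (Balls.ball G₂ v₂ r).card := by
    intro r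
    rw [← Set.ncard_coe_finset]
    congr 1
    ext w
    rw [Finset.mem_coe, Balls.mem_ball h₂ hf2]
    exact Iff.rfl
  have hnb : ∀ x, (Balls.nb (G₁.boxProd G₂) x).card ≤ D := by
    intro x
    have h1 : ((G₁.boxProd G₂).neighborSet x).ncard = (Balls.nb (G₁.boxProd G₂) x).card := by
      rw [← Set.ncard_coe_finset]
      congr 1
      ext w
      rw [Finset.mem_coe, Balls.mem_nb hfin]
      exact Iff.rfl
    rw [← h1]
    have h2 := hdeg x
    rw [← (hfin x).cast_ncard_eq] at h2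
    exact_mod_cast h2
  have H : Balls.HypAt (G₁.boxProd G₂) (v₁, v₂) (ε / D) := by
    refine ⟨hc, hfin, inferInstance, by positivity, ?_⟩
    intro r S hS h2
    rcases S.eq_empty_or_nonempty with rfl | hne
    · rw [Finset.card_empty, Nat.cast_zero, mul_zero]
      exact Nat.cast_nonneg _
    have hmem : ∀ w, w ∈ ball (G₁.boxProd G₂) (v₁, v₂) r ↔
        w ∈ Balls.ball (G₁.boxProd G₂) (v₁, v₂) r := by
      intro w
      rw [Balls.mem_ball hc hfin]
      exact Iff.rfl
    have h3 := hexp r (S : Set (V₁ × V₂)) (fun w hw => (hmem w).2 (hS hw)) hne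
      (by rw [Set.ncard_coe_finset, hb]; exact h2)
    rw [Set.ncard_coe_finset] at h3
    set W := (Balls.ball (G₁.boxProd G₂) (v₁, v₂) r).filter
      (fun w => w ∉ S ∧ ∃ u ∈ S, (G₁.boxProd G₂).Adj u w) with hW
    have h4 : cut (G₁.boxProd G₂) (ball (G₁.boxProd G₂) (v₁, v₂) r) (S : Set (V₁ × V₂)) ≤
        D * W.card := by
      unfold cut
      have h5 : {p : (V₁ × V₂) × (V₁ × V₂) | p.1 ∈ (S : Set (V₁ × V₂)) ∧
          p.2 ∈ ball (G₁.boxProd G₂) (v₁, v₂) r ∧ p.2 ∉ (S : Set (V₁ × V₂)) ∧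
          (G₁.boxProd G₂).Adj p.1 p.2} ⊆
          ((W.sigma fun w => Balls.nb (G₁.boxProd G₂) w).image (fun q => (q.2, q.1)) :
            Finset ((V₁ × V₂) × (V₁ × V₂))) := by
        rintro ⟨a, b⟩ ⟨h6, h7, h8, h9⟩
        rw [Finset.coe_image, Set.mem_image]
        refine ⟨⟨b, a⟩, ?_, rfl⟩
        rw [Finset.mem_coe, Finset.mem_sigma]
        refine ⟨Finset.mem_filter.2 ⟨(hmem b).1 h7, h8, a, h6, h9⟩, ?_⟩
        rw [Balls.mem_nb hfin]
        exact h9.symm
      refine (Set.ncard_le_ncard h5 (Finset.finite_toSet _)).trans ?_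
      rw [Set.ncard_coe_finset]
      refine Finset.card_image_le.trans ?_
      rw [Finset.card_sigma]
      refine (Finset.sum_le_card_nsmul _ _ D fun w _ => hnb w).trans ?_
      rw [smul_eq_mul, mul_comm]
    have h5 : ε * (S.card : ℝ) ≤ D * (W.card : ℝ) := by
      refine h3.trans ?_
      exact_mod_cast h4
    rw [div_mul_eq_mul_div, div_le_iff₀ hD']
    have h6 : ε * (S.card : ℝ) ≤ (W.card : ℝ) * D := by linarith
    refine h6.trans (le_of_eq ?_)
    rw [hW]
    congr!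
  have hh1 : (1 : ℝ) < 1 + ε / D := by
    have : 0 < ε / D := by positivity
    linarith
  obtain ⟨w, hw⟩ := pow_unbounded_of_one_lt (4 : ℝ) hh1
  simp only [hb1, hb2] at hl₁ hl₂ hm
  exact Balls.asymp (b₁ := fun r => ((Balls.ball G₁ v₁ r).card : ℝ))
    (b₂ := fun r => ((Balls.ball G₂ v₂ r).card : ℝ)) (fun r => Nat.cast_nonneg _)
    (fun r => Nat.cast_nonneg _) (by linarith) (by positivity) hlam hmu
    (fun r => Balls.box_bound h₁ h₂ v₁ v₂ H hw.le r) hl₁ hl₂ hm

end Pool.Agent.Results.MP_41fc2e_co.ProductGraphs
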